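import Pool.Agent.Helper36.PT.Defs
import Pool.Agent.Helper14.PT.B3
import Pool.Agent.Helper14.PT.C

/-!
# PT-E1: recursion with a counter, addition, subtraction, sums, products
-/

set_option autoImplicit false

namespace Pool.Agent.Helper36.PT

open Finset

variable {α β γ σ : Type} [Enc α] [Enc β] [Enc γ] [Enc σ]

theorem bdd_nat {f : α → ℕ} (hf : PolyTime f) : Bdd f :=
  hf.bdd.mono (fun a => by rw [esz_nat])

/-- bounds that are uniform in the last number -/
theorem bdd_unif {f : α → ℕ → ℕ} {n : α → ℕ} (hf : Bdd (fun p : α × ℕ => f p.1 p.2))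
    (hn : Bdd n) : ∃ F : α → ℕ, Bdd F ∧ ∀ a, ∀ i ≤ n a, f a i ≤ F a := by
  obtain ⟨d, hd⟩ := hf
  refine ⟨fun a => (2 * esz a + 1 + n a + 2) ^ d, ?_, ?_⟩
  · exact (((((Bdd.const 2).mul Bdd.size).add (Bdd.const 1)).add hn).add (Bdd.const 2)).pow d
  · intro a i hi
    refine (hd (a, i)).trans (Nat.pow_le_pow_left ?_ d)
    rw [esz_pair, esz_nat]
    omega

theorem PolyTime.recN {n : α → ℕ} {g : α → σ} {h : α → ℕ → σ → σ} (hn : PolyTime n)
    (hg : PolyTime g) (hh : PolyTime (fun p : (α × ℕ) × σ => h p.1.1 p.1.2 p.2))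
    (hb : ∃ B : α → ℕ, Bdd B ∧ ∀ a, ∀ i ≤ n a, esz (recN (g a) (h a) i) ≤ B a) :
    PolyTime (fun a => PT.recN (g a) (h a) (n a)) := by
  obtain ⟨B, hB, hBb⟩ := hb
  let H : α × (ℕ × σ) → ℕ × σ := fun p => (Nat.succ p.2.1, h p.1 p.2.1 p.2.2)
  have h21 : PolyTime (fun p : α × (ℕ × σ) => p.2.1) :=
    PolyTime.comp (g := fun q : ℕ × σ => q.1) (f := fun p : α × (ℕ × σ) => p.2)
      PolyTime.fst PolyTime.snd
  have h22 : PolyTime (fun p : α × (ℕ × σ) => p.2.2) :=
    PolyTime.comp (g := fun q : ℕ × σ => q.2) (f := fun p : α × (ℕ × σ) => p.2)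
      PolyTime.snd PolyTime.snd
  have hre : PolyTime (fun p : α × (ℕ × σ) => ((p.1, p.2.1), p.2.2)) :=
    (PolyTime.pair PolyTime.fst h21).pair h22
  have hH : PolyTime H :=
    (PolyTime.comp PolyTime.succ h21).pair (PolyTime.comp hh hre)
  have key : ∀ a i, (fun s => H (a, s))^[i] (0, g a) = (i, PT.recN (g a) (h a) i) := by
    intro a i
    induction i with
    | zero => rfl
    | succ i ih => rw [Function.iterate_succ_apply', ih]; rfl
  have hit := PolyTime.iterate (n := n) (g := fun a => ((0 : ℕ), g a)) (h := H) hn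
    ((PolyTime.const 0).pair hg) hH ⟨fun a => 2 * n a + 1 + B a,
      (((Bdd.const 2).mul (bdd_nat hn)).add (Bdd.const 1)).add hB, by
        intro a i hi
        rw [key, esz_pair, esz_nat]
        have := hBb a i hi
        change _ ≤ 2 * n a + 1 + B a
        omega⟩
  refine (PolyTime.comp (g := fun q : ℕ × σ => q.2) PolyTime.snd hit).congr (fun a => ?_)
  rw [key]

theorem PolyTime.add {f g : α → ℕ} (hf : PolyTime f) (hg : PolyTime g) :
    PolyTime (fun a => f a + g a) := by
  have key : ∀ m i : ℕ, Nat.succ^[i] m = m + i := by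
    intro m i
    induction i with
    | zero => rfl
    | succ i ih => rw [Function.iterate_succ_apply', ih]; rfl
  have hH : PolyTime (fun p : α × ℕ => Nat.succ p.2) := PolyTime.comp PolyTime.succ PolyTime.snd
  have hit := PolyTime.iterate (n := g) (g := f) (h := fun p : α × ℕ => Nat.succ p.2) hg hf hH
    ⟨fun a => f a + g a, (bdd_nat hf).add (bdd_nat hg), by
      intro a i hi
      change esz (Nat.succ^[i] (f a)) ≤ f a + g a
      rw [key, esz_nat]
      omega⟩
  exact hit.congr (fun a => key (f a) (g a))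

theorem PolyTime.sub {f g : α → ℕ} (hf : PolyTime f) (hg : PolyTime g) :
    PolyTime (fun a => f a - g a) := by
  have key : ∀ m i : ℕ, Nat.pred^[i] m = m - i := by
    intro m i
    induction i with
    | zero => rfl
    | succ i ih => rw [Function.iterate_succ_apply', ih]; rfl
  have hH : PolyTime (fun p : α × ℕ => Nat.pred p.2) := PolyTime.comp PolyTime.pred PolyTime.snd
  have hit := PolyTime.iterate (n := g) (g := f) (h := fun p : α × ℕ => Nat.pred p.2) hg hf hH
    ⟨f, bdd_nat hf, by
      intro a i hi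
      change esz (Nat.pred^[i] (f a)) ≤ f a
      rw [key, esz_nat]
      omega⟩
  exact hit.congr (fun a => key (f a) (g a))

theorem recN_sum (f : ℕ → ℕ) (n : ℕ) :
    PT.recN 0 (fun i s => s + f i) n = ∑ i ∈ range n, f i := by
  induction n with
  | zero => rfl
  | succ n ih => rw [Finset.sum_range_succ, ← ih]; rfl

theorem PolyTime.sum {n : α → ℕ} {f : α → ℕ → ℕ} (hn : PolyTime n)
    (hf : PolyTime (fun p : α × ℕ => f p.1 p.2)) :
    PolyTime (fun a => ∑ i ∈ range (n a), f a i) := by
  obtain ⟨F, hF, hFb⟩ := bdd_unif (bdd_nat hf) (bdd_nat hn)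
  have hh : PolyTime (fun p : (α × ℕ) × ℕ => p.2 + f p.1.1 p.1.2) :=
    PolyTime.snd.add (PolyTime.comp (g := fun p : α × ℕ => f p.1 p.2) hf PolyTime.fst)
  have hr := PolyTime.recN (n := n) (g := fun _ : α => 0) (h := fun a i s => s + f a i) hn
    (PolyTime.const 0) hh ⟨fun a => n a * F a, (bdd_nat hn).mul hF, by
      intro a i hi
      rw [recN_sum, esz_nat]
      calc ∑ k ∈ range i, f a k ≤ ∑ k ∈ range i, F a :=
            Finset.sum_le_sum (fun k hk => hFb a k (by have := Finset.mem_range.mp hk; omega))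
        _ = i * F a := by rw [Finset.sum_const, Finset.card_range, smul_eq_mul]
        _ ≤ n a * F a := Nat.mul_le_mul_right _ hi⟩
  exact hr.congr (fun a => recN_sum (f a) (n a))

theorem PolyTime.mul {f g : α → ℕ} (hf : PolyTime f) (hg : PolyTime g) :
    PolyTime (fun a => f a * g a) :=
  (PolyTime.sum (f := fun a _ => g a) hf (PolyTime.comp hg PolyTime.fst)).congr (fun a => by
    rw [Finset.sum_const, Finset.card_range, smul_eq_mul])

theorem PolyTime.pow {f : α → ℕ} (hf : PolyTime f) (k : ℕ) : PolyTime (fun a => f a ^ k) := by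
  induction k with
  | zero => exact (PolyTime.const 1).congr (fun a => by rw [pow_zero])
  | succ k ih => exact (ih.mul hf).congr (fun a => by rw [pow_succ])

theorem PolyTime.max {f g : α → ℕ} (hf : PolyTime f) (hg : PolyTime g) :
    PolyTime (fun a => max (f a) (g a)) :=
  (hf.add (hg.sub hf)).congr (fun a => by omega)

theorem PolyTime.min {f g : α → ℕ} (hf : PolyTime f) (hg : PolyTime g) :
    PolyTime (fun a => min (f a) (g a)) :=
  (hf.sub (hf.sub hg)).congr (fun a => by omega)

end Pool.Agent.Helper36.PT
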