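import Pool.Agent.Helper28.PT.E1

/-!
# PT-E2: predicates
-/

set_option autoImplicit false

namespace Pool.Agent.Helper36.PT

open Finset

variable {α β γ σ : Type} [Enc α] [Enc β] [Enc γ] [Enc σ]

theorem PolyPred.congr {Q R : α → Prop} (h : PolyPred Q) (hR : ∀ a, (Q a ↔ R a)) :
    PolyPred R := by
  obtain ⟨f, hf, hQ⟩ := h
  exact ⟨f, hf, fun a => (hQ a).trans (hR a)⟩

theorem PolyPred.comp {Q : β → Prop} {f : α → β} (h : PolyPred Q) (hf : PolyTime f) :
    PolyPred (fun a => Q (f a)) := by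
  obtain ⟨g, hg, hQ⟩ := h
  exact ⟨fun a => g (f a), PolyTime.comp hg hf, fun a => hQ (f a)⟩

theorem PolyPred.and {Q R : α → Prop} (hQ : PolyPred Q) (hR : PolyPred R) :
    PolyPred (fun a => Q a ∧ R a) := by
  obtain ⟨f, hf, hQ⟩ := hQ
  obtain ⟨g, hg, hR⟩ := hR
  refine ⟨fun a => f a && g a,
    PolyTime.comp (g := fun p : Bool × Bool => p.1 && p.2) PolyTime.and (hf.pair hg),
    fun a => ?_⟩
  rw [Bool.and_eq_true, hQ a, hR a]

theorem PolyPred.or {Q R : α → Prop} (hQ : PolyPred Q) (hR : PolyPred R) :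
    PolyPred (fun a => Q a ∨ R a) := by
  obtain ⟨f, hf, hQ⟩ := hQ
  obtain ⟨g, hg, hR⟩ := hR
  refine ⟨fun a => f a || g a,
    PolyTime.comp (g := fun p : Bool × Bool => p.1 || p.2) PolyTime.or (hf.pair hg),
    fun a => ?_⟩
  rw [Bool.or_eq_true, hQ a, hR a]

theorem PolyPred.not {Q : α → Prop} (hQ : PolyPred Q) : PolyPred (fun a => ¬ Q a) := by
  obtain ⟨f, hf, hQ⟩ := hQ
  refine ⟨fun a => !(f a), PolyTime.comp (g := fun c : Bool => !c) PolyTime.not hf,
    fun a => ?_⟩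
  change (!(f a)) = true ↔ ¬ Q a
  rw [← hQ a, Bool.not_eq_true', Bool.not_eq_true]

theorem PolyPred.imp {Q R : α → Prop} (hQ : PolyPred Q) (hR : PolyPred R) :
    PolyPred (fun a => Q a → R a) :=
  (hQ.not.or hR).congr (fun a => by tauto)

theorem PolyPred.iff {Q R : α → Prop} (hQ : PolyPred Q) (hR : PolyPred R) :
    PolyPred (fun a => (Q a ↔ R a)) :=
  ((hQ.imp hR).and (hR.imp hQ)).congr (fun a => by tauto)

theorem PolyPred.const (Q : Prop) : PolyPred (fun _ : α => Q) := by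
  by_cases h : Q
  · exact ⟨fun _ => true, PolyTime.const true, fun _ => by simp [h]⟩
  · exact ⟨fun _ => false, PolyTime.const false, fun _ => by simp [h]⟩

theorem PolyPred.isZero {f : α → ℕ} (hf : PolyTime f) : PolyPred (fun a => f a = 0) :=
  ⟨fun a => decide (f a = 0),
    PolyTime.comp (g := fun n : ℕ => decide (n = 0)) PolyTime.isZero hf,
    fun a => by rw [decide_eq_true_iff]⟩

theorem PolyPred.le {f g : α → ℕ} (hf : PolyTime f) (hg : PolyTime g) :
    PolyPred (fun a => f a ≤ g a) :=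
  (PolyPred.isZero (hf.sub hg)).congr (fun _ => Nat.sub_eq_zero_iff_le)

theorem PolyPred.lt {f g : α → ℕ} (hf : PolyTime f) (hg : PolyTime g) :
    PolyPred (fun a => f a < g a) :=
  (PolyPred.le hg hf).not.congr (fun _ => Nat.not_le)

theorem PolyPred.eq {f g : α → ℕ} (hf : PolyTime f) (hg : PolyTime g) :
    PolyPred (fun a => f a = g a) :=
  ((PolyPred.le hf hg).and (PolyPred.le hg hf)).congr (fun a => by omega)

theorem PolyPred.bool {f : α → Bool} (hf : PolyTime f) : PolyPred (fun a => f a = true) :=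
  ⟨f, hf, fun _ => Iff.rfl⟩

theorem PolyTime.ite {Q : α → Prop} [∀ a, Decidable (Q a)] {f g : α → β} (hQ : PolyPred Q)
    (hf : PolyTime f) (hg : PolyTime g) : PolyTime (fun a => if Q a then f a else g a) := by
  obtain ⟨c, hc, hQ⟩ := hQ
  refine (PolyTime.cond hc hf hg).congr (fun a => ?_)
  by_cases h : Q a
  · rw [if_pos h, if_pos ((hQ a).2 h)]
  · rw [if_neg h, if_neg (fun h' => h ((hQ a).1 h'))]

theorem PolyTime.ind {Q : α → Prop} (hQ : PolyPred Q) : PolyTime (fun a => ind (Q a)) := by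
  classical
  refine (PolyTime.ite hQ (PolyTime.const 1) (PolyTime.const 0)).congr (fun a => ?_)
  by_cases h : Q a
  · rw [if_pos h, ind_pos _ h]
  · rw [if_neg h, ind_neg _ h]

theorem PolyTime.dec {Q : α → Prop} (hQ : PolyPred Q) : PolyTime (fun a => dec (Q a)) := by
  obtain ⟨c, hc, hQ⟩ := hQ
  refine hc.congr (fun a => ?_)
  rw [Bool.eq_iff_iff, hQ a, dec_eq_true]

end Pool.Agent.Helper36.PT
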