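import Pool.Agent.Helper28.PT.E2

/-!
# PT-E3: bounded quantifiers, search, counting
-/

set_option autoImplicit false

namespace Pool.Agent.Helper36.PT

open Finset

variable {α β γ σ : Type} [Enc α] [Enc β] [Enc γ] [Enc σ]

theorem PolyPred.exLt {n : α → ℕ} {Q : α → ℕ → Prop} (hn : PolyTime n)
    (hQ : PolyPred (fun p : α × ℕ => Q p.1 p.2)) : PolyPred (fun a => ∃ i < n a, Q a i) := by
  refine (PolyPred.isZero (PolyTime.sum (f := fun a i => PT.ind (Q a i)) hn
    (PolyTime.ind hQ))).not.congr (fun a => ?_)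
  rw [Finset.sum_eq_zero_iff]
  push Not
  constructor
  · rintro ⟨i, hi, h⟩
    refine ⟨i, Finset.mem_range.mp hi, ?_⟩
    by_contra h'
    exact h (ind_neg _ h')
  · rintro ⟨i, hi, h⟩
    refine ⟨i, Finset.mem_range.mpr hi, ?_⟩
    rw [ind_pos _ h]
    exact one_ne_zero

theorem PolyPred.allLt {n : α → ℕ} {Q : α → ℕ → Prop} (hn : PolyTime n)
    (hQ : PolyPred (fun p : α × ℕ => Q p.1 p.2)) : PolyPred (fun a => ∀ i < n a, Q a i) :=
  (PolyPred.exLt (Q := fun a i => ¬ Q a i) hn hQ.not).not.congr (fun a => by push Not; rfl)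

theorem mu_spec {n : ℕ} {Q : ℕ → Prop} (h : ∃ i < n, Q i) : mu n Q < n ∧ Q (mu n Q) := by
  classical
  have h' : ∃ i, i < n ∧ Q i := h
  have e : mu n Q = Nat.find h' := by
    unfold mu
    rw [dif_pos h']
  rw [e]
  exact Nat.find_spec h'

theorem mu_min {n : ℕ} {Q : ℕ → Prop} {i : ℕ} (h : i < mu n Q) : ¬ Q i := by
  classical
  intro hQ
  by_cases h' : ∃ i, i < n ∧ Q i
  · have e : mu n Q = Nat.find h' := by
      unfold mu
      rw [dif_pos h']
    have h1 := (Nat.find_spec h').1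
    rw [e] at h
    exact Nat.find_min h' h ⟨by omega, hQ⟩
  · have e : mu n Q = n := by
      unfold mu
      rw [dif_neg h']
    rw [e] at h
    exact h' ⟨i, h, hQ⟩

theorem mu_le (n : ℕ) (Q : ℕ → Prop) : mu n Q ≤ n := by
  classical
  by_cases h' : ∃ i, i < n ∧ Q i
  · exact (mu_spec h').1.le
  · unfold mu
    rw [dif_neg h']

theorem mu_lt_iff {n : ℕ} {Q : ℕ → Prop} : mu n Q < n ↔ ∃ i < n, Q i := by
  classical
  constructor
  · intro h
    by_contra h'
    have e : mu n Q = n := by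
      unfold mu
      rw [dif_neg h']
    omega
  · intro h
    exact (mu_spec h).1

theorem ind_eq_ite (Q : Prop) [Decidable Q] : ind Q = if Q then 1 else 0 := by
  by_cases h : Q
  · rw [ind_pos _ h, if_pos h]
  · rw [ind_neg _ h, if_neg h]

theorem PolyTime.count {n : α → ℕ} {Q : α → ℕ → Prop} [∀ a, DecidablePred (Q a)]
    (hn : PolyTime n) (hQ : PolyPred (fun p : α × ℕ => Q p.1 p.2)) :
    PolyTime (fun a => ((range (n a)).filter (Q a)).card) := by
  refine (PolyTime.sum (f := fun a i => PT.ind (Q a i)) hn (PolyTime.ind hQ)).congr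
    (fun a => ?_)
  rw [Finset.card_filter]
  exact Finset.sum_congr rfl (fun i _ => ind_eq_ite _)

theorem PolyTime.mu {n : α → ℕ} {Q : α → ℕ → Prop} (hn : PolyTime n)
    (hQ : PolyPred (fun p : α × ℕ => Q p.1 p.2)) : PolyTime (fun a => mu (n a) (Q a)) := by
  classical
  have h1 : PolyPred (fun p : (α × ℕ) × ℕ => ¬ Q p.1.1 p.2) :=
    PolyPred.comp (Q := fun p : α × ℕ => ¬ Q p.1 p.2)
      (f := fun p : (α × ℕ) × ℕ => (p.1.1, p.2)) hQ.not
      (PolyTime.pair (PolyTime.comp (g := fun q : α × ℕ => q.1)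
        (f := fun p : (α × ℕ) × ℕ => p.1) PolyTime.fst PolyTime.fst) PolyTime.snd)
  have h2 : PolyPred (fun p : α × ℕ => ∀ k < p.2 + 1, ¬ Q p.1 k) :=
    PolyPred.allLt (α := α × ℕ) (n := fun p => p.2 + 1) (Q := fun p k => ¬ Q p.1 k)
      (PolyTime.snd.add (PolyTime.const 1)) h1
  refine (PolyTime.count (Q := fun a i => ∀ k < i + 1, ¬ Q a k) hn h2).congr (fun a => ?_)
  have h3 : (range (n a)).filter (fun i => ∀ k < i + 1, ¬ Q a k) =
      range (PT.mu (n a) (Q a)) := by
    ext i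
    simp only [Finset.mem_filter, Finset.mem_range]
    constructor
    · rintro ⟨hi, h⟩
      by_contra hlt
      have h4 : PT.mu (n a) (Q a) < n a := by omega
      have h5 := (mu_spec (mu_lt_iff.1 h4)).2
      exact h _ (by omega) h5
    · intro hi
      have h4 := mu_le (n a) (Q a)
      exact ⟨by omega, fun k hk => mu_min (n := n a) (Q := Q a) (by omega)⟩
  rw [h3, Finset.card_range]

end Pool.Agent.Helper36.PT
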